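import Pool.Agent.Q253.LH.F2
import Pool.Agent.Q253.LM.F1

set_option autoImplicit false

/-! # Project LH: the prime sum of a subgroup (following helper14's `Pool.Agent.Q14.LQ.CL` and `LA`) -/

namespace Pool.Agent.Q253.LH

open MeasureTheory Complex Filter Topology Set
open DirichletCharacter (LFunction completedLFunction)
open Pool.Agent.Q14.LQ
open Pool.Agent.Q253.LQ (GRHc mc XL xi EC I0)
open Pool.Agent.Q253.CP (chH mem_chH one_mem_chH sum_chH)

variable {q : ℕ} [NeZero q] {H : Subgroup (ZMod q)ˣ}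

open Classical in
/-- `[K:ℚ] ∑_{n mod q ∈ H} Λ(n) n^(-1/2) min(n/x, x/n) - (8/3) √x` for `x = e^u` -/
noncomputable def EE (H : Subgroup (ZMod q)ˣ) (u : ℝ) : ℝ :=
  (H.index : ℝ) * (∑' n : ℕ, if ∃ v ∈ H, (v : ZMod q) = (n : ZMod q) then ArithmeticFunction.vonMangoldt n *
    (Real.exp (-(Real.log n / 2)) * Real.exp (-|u - Real.log n|)) else 0) - 8 / 3 * Real.exp (u / 2)

open Classical in
/-- the coefficients -/
noncomputable def bH (H : Subgroup (ZMod q)ˣ) (n : ℕ) : ℂ :=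
  if ∃ v ∈ H, (v : ZMod q) = (n : ZMod q) then
    ((ArithmeticFunction.vonMangoldt n * Real.exp (-(Real.log n / 2)) : ℝ) : ℂ) else 0

theorem HB_bH (H : Subgroup (ZMod q)ˣ) : HB (bH H) := by
  refine HB_of_le (C := 1) fun n => ?_
  have h0 : 0 ≤ ArithmeticFunction.vonMangoldt n * Real.exp (-(Real.log n / 2)) :=
    mul_nonneg ArithmeticFunction.vonMangoldt_nonneg (Real.exp_pos _).le
  unfold bH
  split_ifs
  · rw [Complex.norm_real, Real.norm_of_nonneg h0, one_mul]
  · rw [norm_zero, one_mul]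
    exact h0

theorem EE_eq (H : Subgroup (ZMod q)ˣ) (u : ℝ) :
    ((EE H u : ℝ) : ℂ) = (H.index : ℂ) * ES (bH H) u - ((8 / 3 * Real.exp (u / 2) : ℝ) : ℂ) := by
  unfold EE ES
  rw [Complex.ofReal_sub, Complex.ofReal_mul, Complex.ofReal_tsum, Complex.ofReal_natCast]
  congr 2
  refine tsum_congr fun n => ?_
  unfold bH
  split_ifs
  · push_cast
    ring
  · simp

theorem EE_cont (H : Subgroup (ZMod q)ˣ) : Continuous (EE H) := by
  have h1 : Continuous (fun u : ℝ => ((H.index : ℂ) * ES (bH H) u - ((8 / 3 * Real.exp (u / 2) : ℝ) : ℂ)).re) := by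
    refine Complex.continuous_re.comp ((continuous_const.mul (ES_cont (HB_bH H))).sub ?_)
    fun_prop
  have e : EE H = fun u : ℝ => ((H.index : ℂ) * ES (bH H) u - ((8 / 3 * Real.exp (u / 2) : ℝ) : ℂ)).re := by
    funext u
    rw [← EE_eq, Complex.ofReal_re]
  rw [e]
  exact h1

theorem sum_bc (n : ℕ) : ∑ χ ∈ chH H, bc χ n = (H.index : ℂ) * bH H n := by
  classical
  have h3 := sum_chH H (n : ZMod q)
  unfold bc bH
  rw [← Finset.sum_mul, ← Finset.mul_sum, h3]
  split_ifs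
  · push_cast
    ring
  · simp

theorem EE_sum (u : ℝ) : ((EE H u : ℝ) : ℂ) = ∑ χ ∈ chH H, EC χ u := by
  classical
  simp_rw [EC_eq]
  rw [Finset.sum_sub_distrib, EE_eq]
  congr 1
  · unfold ES
    rw [← Summable.tsum_finsetSum fun χ _ => (ES_summable (HB_bc χ) u).of_norm, ← tsum_mul_left]
    refine tsum_congr fun n => ?_
    rw [← Finset.sum_mul, sum_bc, mul_assoc]
  · rw [Finset.sum_ite_eq' (chH H) (1 : DirichletCharacter ℂ q), if_pos (one_mem_chH H)]

/-- the product -/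
noncomputable def Ex (H : Subgroup (ZMod q)ˣ) (s : ℂ) : ℂ := ∏ χ ∈ chH H, Mx χ s

theorem Ex_diff : Differentiable ℂ (Ex H) := by
  have h := Differentiable.fun_finsetProd (𝕜 := ℂ) (u := chH H)
    (f := fun χ => Mx χ) fun χ _ => Mx_diff χ
  exact h

theorem Ex_log {s : ℂ} (hs : 1 < s.re) :
    deriv (Ex H) s = ((∑ χ ∈ chH H, logDeriv (LFunction χ) s) + 1 / (s - 1)) * Ex H s := by
  classical
  have h1 := logDeriv_prod (𝕜 := ℂ) (𝕜' := ℂ) (s := chH H)
    (f := fun χ => Mx χ) (x := s) (fun χ _ => Mx_ne' χ hs) (fun χ _ => Mx_diff χ s)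
  have h2 : logDeriv (Ex H) s = ∑ χ ∈ chH H, logDeriv (Mx χ) s := h1
  have h3 : Ex H s ≠ 0 := Finset.prod_ne_zero_iff.2 fun χ _ => Mx_ne' χ hs
  rw [logDeriv_apply, div_eq_iff h3] at h2
  rw [h2]
  congr 1
  rw [Finset.sum_congr rfl fun χ _ => Mx_log χ hs, Finset.sum_add_distrib]
  congr 1
  rw [Finset.sum_ite_eq' (chH H) (1 : DirichletCharacter ℂ q), if_pos (one_mem_chH H)]

theorem DS_bH {z : ℂ} (hz : 1 / 2 < z.re) :
    (H.index : ℂ) * DS (bH H) z = -∑ χ ∈ chH H, logDeriv (LFunction χ) (1 / 2 + z) := by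
  rw [← Finset.sum_neg_distrib, ← Finset.sum_congr rfl fun χ _ => DS_bc χ hz]
  unfold DS
  rw [← Summable.tsum_finsetSum fun χ _ => DS_summable (HB_bc χ) hz, ← tsum_mul_left]
  refine tsum_congr fun n => ?_
  rw [← Finset.sum_mul, sum_bc, mul_assoc]

theorem LT_EE {z : ℂ} (hz : 1 < z.re) :
    lp (fun u => -EE H u) z = 8 / 3 / (z - 1 / 2) - (H.index : ℂ) *
      (2 / (1 - z ^ 2) * DS (bH H) z - 1 / (1 - z) * DS (bH H) 1) := by
  have h1 : z ≠ 1 := by
    rintro rfl
    simp at hz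
  have hre : (-(z - 1 / 2)).re < 0 := by
    rw [Complex.neg_re, Complex.sub_re]
    have : ((1 : ℂ) / 2).re = 1 / 2 := by norm_num
    rw [this]
    linarith
  have i1 := (integrableOn_exp_mul_complex_Ioi hre 0).const_mul (8 / 3 : ℂ)
  have i2 := (LT_intble (HB_bH H) (z := z) (by linarith)).const_mul (H.index : ℂ)
  have e : lp (fun u => -EE H u) z = ∫ u in Ioi (0 : ℝ), ((8 / 3 : ℂ) * cexp (-(z - 1 / 2) * u) -
      (H.index : ℂ) * (ES (bH H) u * cexp (-z * u))) := by
    unfold Pool.Agent.Q14.LQ.lp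
    refine setIntegral_congr_fun measurableSet_Ioi fun u _ => ?_
    simp only
    rw [Complex.ofReal_neg, EE_eq]
    have e1 : cexp (-(z - 1 / 2) * u) = cexp ((u / 2 : ℝ) : ℂ) * cexp (-z * u) := by
      rw [← Complex.exp_add]
      congr 1
      push_cast
      ring
    rw [e1, Complex.ofReal_mul, Complex.ofReal_exp]
    push_cast
    ring
  rw [e, integral_sub i1 i2, integral_const_mul, integral_const_mul, LT_ES (HB_bH H) (by linarith) h1,
    integral_exp_mul_complex_Ioi hre]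
  congr 1
  rw [Complex.ofReal_zero, mul_zero, Complex.exp_zero, neg_div_neg_eq]
  ring

theorem key_id {z : ℂ} (hz : 1 < z.re) :
    (1 - z ^ 2) * lp (fun u => -EE H u) z * Ex H (1 / 2 + z) =
      2 * deriv (fun z => Ex H (1 / 2 + z)) z -
        (8 / 3 * (z + 1 / 2) + (1 + z) * (∑ χ ∈ chH H, logDeriv (LFunction χ) (1 / 2 + 1))) *
        Ex H (1 / 2 + z) := by
  have hre : 1 < (1 / 2 + z).re := by
    rw [Complex.add_re]
    have : ((1 : ℂ) / 2).re = 1 / 2 := by norm_num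
    rw [this]
    linarith
  have hd : deriv (fun z => Ex H (1 / 2 + z)) z = deriv (Ex H) (1 / 2 + z) := by
    have h1 : HasDerivAt (fun z : ℂ => 1 / 2 + z) 1 z := (hasDerivAt_id z).const_add (1 / 2)
    have h2 := HasDerivAt.comp (h₂ := Ex H) z (Ex_diff (1 / 2 + z)).hasDerivAt h1
    have h3 : HasDerivAt (fun z => Ex H (1 / 2 + z)) (deriv (Ex H) (1 / 2 + z) * 1) z := h2
    rw [h3.deriv, mul_one]
  rw [hd, Ex_log hre, LT_EE hz, mul_sub (H.index : ℂ)]
  have e1 := DS_bH (H := H) (z := z) (by linarith)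
  have e2 := DS_bH (H := H) (z := 1) (by norm_num)
  have e3 : (H.index : ℂ) * (2 / (1 - z ^ 2) * DS (bH H) z) = 2 / (1 - z ^ 2) *
      ((H.index : ℂ) * DS (bH H) z) := by ring
  have e4 : (H.index : ℂ) * (1 / (1 - z) * DS (bH H) 1) = 1 / (1 - z) *
      ((H.index : ℂ) * DS (bH H) 1) := by ring
  rw [e3, e4, e1, e2]
  have n1 : z - 1 / 2 ≠ 0 := by
    intro h
    have := congrArg Complex.re h
    rw [Complex.sub_re] at this
    norm_num at this
    linarith
  have n2 : 1 - z ≠ 0 := by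
    intro h
    have := congrArg Complex.re h
    simp at this
    linarith
  have n3 : 1 + z ≠ 0 := by
    intro h
    have := congrArg Complex.re h
    simp at this
    linarith
  have n4 : 1 - z ^ 2 ≠ 0 := by
    have : 1 - z ^ 2 = (1 - z) * (1 + z) := by ring
    rw [this]
    exact mul_ne_zero n2 n3
  have e5 : (1 : ℂ) / (1 - z) = (1 + z) / (1 - z ^ 2) := by
    have : 1 - z ^ 2 = (1 - z) * (1 + z) := by ring
    rw [this]
    field_simp
  rw [e5]
  have e6 : (1 / 2 + z) - 1 = z - 1 / 2 := by ring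
  rw [e6]
  generalize (∑ χ ∈ chH H, logDeriv (LFunction χ) (1 / 2 + z)) = S
  generalize (∑ χ ∈ chH H, logDeriv (LFunction χ) (1 / 2 + 1)) = T
  generalize Ex H (1 / 2 + z) = X
  set w : ℂ := z - 1 / 2 with hw
  have hz' : z = w + 1 / 2 := by rw [hw]; ring
  have e7 : (1 - z ^ 2) * (8 / 3 / w - (2 / (1 - z ^ 2) * (-S) - (1 + z) / (1 - z ^ 2) * (-T))) =
      (1 - z ^ 2) * (8 / 3 / w) + 2 * S - (1 + z) * T := by
    field_simp
    ring
  rw [e7]
  have e8 : (1 - z ^ 2) * (8 / 3 / w) = 2 * (1 / w) - 8 / 3 * (z + 1 / 2) := by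
    rw [hz']
    field_simp
    ring
  rw [e8]
  ring

/-- one-sided boundedness in the mean implies the Riemann hypothesis -/
theorem LA_H (hp : ∃ C : ℝ, ∀ᶠ U : ℝ in atTop, ∫ u in (0 : ℝ)..U, max (-EE H u) 0 ≤ C * U) : GRHq H := by
  intro χ hχ s hs1 hs2 h0
  obtain ⟨C, hC⟩ := hp
  have hc : Continuous (fun u => -EE H u) := (EE_cont H).neg
  have hp' : ∀ σ : ℝ, 0 < σ → IntegrableOn (fun u => max (-EE H u) 0 * Real.exp (-(σ * u))) (Ioi 0) :=
    fun σ hσ => int_of_bound (hc.max continuous_const) (fun u => le_max_right _ _) (C := C) hC hσ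
  have hm : ∀ σ : ℝ, 1 / 2 < σ → IntegrableOn (fun u => max (-(-EE H u)) 0 * Real.exp (-(σ * u))) (Ioi 0) := by
    intro σ hσ
    have hre : (-(((σ : ℝ) : ℂ) - 1 / 2)).re < 0 := by
      rw [Complex.neg_re, Complex.sub_re, Complex.ofReal_re]
      have : ((1 : ℂ) / 2).re = 1 / 2 := by norm_num
      rw [this]
      linarith
    have i1 := (integrableOn_exp_mul_complex_Ioi hre 0).const_mul (8 / 3 : ℂ)
    have i2 := (LT_intble (HB_bH H) (z := (σ : ℂ)) (by rw [Complex.ofReal_re]; exact hσ)).const_mul (H.index : ℂ)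
    have i3 := (i2.sub i1).norm
    refine Integrable.mono' i3 ((((hc.neg).max continuous_const).mul (by fun_prop)).aestronglyMeasurable)
      (Eventually.of_forall fun u => ?_)
    rw [Real.norm_of_nonneg (mul_nonneg (le_max_right _ _) (Real.exp_pos _).le), neg_neg]
    have e1 : ((H.index : ℂ) * (ES (bH H) u * cexp (-(σ : ℂ) * u)) -
        (8 / 3 : ℂ) * cexp (-((σ : ℂ) - 1 / 2) * u)) = ((EE H u * Real.exp (-(σ * u)) : ℝ) : ℂ) := by
      rw [Complex.ofReal_mul, EE_eq]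
      have e1 : cexp (-((σ : ℂ) - 1 / 2) * u) = cexp ((u / 2 : ℝ) : ℂ) * cexp (-(σ : ℂ) * u) := by
        rw [← Complex.exp_add]
        congr 1
        push_cast
        ring
      have e2 : ((Real.exp (-(σ * u)) : ℝ) : ℂ) = cexp (-(σ : ℂ) * u) := by
        rw [Complex.ofReal_exp]
        congr 1
        push_cast
        ring
      rw [e1, e2, Complex.ofReal_mul, Complex.ofReal_exp]
      push_cast
      ring
    simp only [Pi.sub_apply]
    rw [e1, Complex.norm_real, Real.norm_eq_abs, abs_mul, abs_of_pos (Real.exp_pos _)]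
    refine mul_le_mul_of_nonneg_right ?_ (Real.exp_pos _).le
    exact max_le (le_abs_self _) (abs_nonneg _)
  have hE : Differentiable ℂ (fun z => Ex H (1 / 2 + z)) :=
    (Ex_diff (H := H)).comp (by fun_prop : Differentiable ℂ (fun z : ℂ => 1 / 2 + z))
  have key := LA_abs (f := fun u => -EE H u) hc hp' hm (E := fun z => Ex H (1 / 2 + z))
    (H := fun z => 8 / 3 * (z + 1 / 2) + (1 + z) *
      (∑ χ ∈ chH H, logDeriv (LFunction χ) (1 / 2 + 1))) hE (by fun_prop)
    ⟨1, Finset.prod_ne_zero_iff.2 fun χ _ => Mx_ne' χ (by norm_num)⟩ (fun z hz => key_id hz) (s - 1 / 2) (by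
      rw [Complex.sub_re]
      have : ((1 : ℂ) / 2).re = 1 / 2 := by norm_num
      rw [this]
      linarith)
  refine key ?_
  have hs : s ≠ 1 := by
    rintro rfl
    simp at hs2
  have e : 1 / 2 + (s - 1 / 2) = s := by ring
  rw [e]
  exact Finset.prod_eq_zero hχ ((Mx_ne χ hs).2 h0)

end Pool.Agent.Q253.LH
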