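import Pool.Agent.Q253.LQ.F5
import Pool.Agent.Q253.CP.F6

set_option autoImplicit false

/-!
# Project LH: linear independence of the zeros over an abelian field and one inequality for primes

The files of this folder generalise those of `Pool/Agent/Q253/LQ` from all the characters modulo `q` to the
characters which are trivial on a subgroup `H`.
-/

namespace Pool.Agent.Q253.LH

open MeasureTheory Filter Topology Set Complex
open DirichletCharacter (LFunction completedLFunction)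
open Pool.Agent.Q253.LQ (GRHc mc XL xi EC I0 low ne_zI ne_zI' ne_sq cauchy_le kern_le sm_of_le)
open Pool.Agent.Q253.CP (chH mem_chH one_mem_chH sum_chH)

variable {q : ℕ} [NeZero q] {H : Subgroup (ZMod q)ˣ}

/-- total multiplicity of `1/2 + iγ` -/
noncomputable def mt (H : Subgroup (ZMod q)ˣ) (γ : ℝ) : ℕ := ∑ χ ∈ chH H, mc χ γ

/-- the logarithmic derivative of the product -/
noncomputable def Lam (H : Subgroup (ZMod q)ˣ) (z : ℂ) : ℂ := ∑ χ ∈ chH H, logDeriv (XL χ) (1 / 2 + z)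

/-- GRH for the characters trivial on `H` -/
def GRHq (H : Subgroup (ZMod q)ˣ) : Prop := ∀ χ ∈ chH H, GRHc χ

lemma inv_mem {χ : DirichletCharacter ℂ q} (h : χ ∈ chH H) : χ⁻¹ ∈ chH H := by
  rw [mem_chH] at h ⊢
  intro u hu
  rw [MulChar.inv_apply_eq_inv', h u hu, inv_one]

lemma mt_neg (γ : ℝ) : mt H (-γ) = mt H γ := by
  unfold mt
  simp_rw [Pool.Agent.Q14.LQ.t_SY q]
  refine Finset.sum_bij' (fun χ _ => χ⁻¹) (fun χ _ => χ⁻¹) (fun χ hχ => inv_mem hχ) (fun χ hχ => inv_mem hχ) ?_ ?_ ?_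
  · intro χ _
    rw [inv_inv]
  · intro χ _
    rw [inv_inv]
  · intro χ _
    rfl

/-- sums over characters and sums over ordinates -/
lemma mt_sum {E : Type} [NormedAddCommGroup E] [NormedSpace ℝ E] [CompleteSpace E] (g : ℝ → E)
    (h : ∀ χ ∈ chH H, Summable fun γ : ℝ => (mc χ γ : ℝ) • g γ) :
    Summable (fun γ : ℝ => (mt H γ : ℝ) • g γ) ∧
      ∑' γ : ℝ, (mt H γ : ℝ) • g γ = ∑ χ ∈ chH H, ∑' γ : ℝ, (mc χ γ : ℝ) • g γ := by
  have e : (fun γ : ℝ => (mt H γ : ℝ) • g γ) = fun γ => ∑ χ ∈ chH H, (mc χ γ : ℝ) • g γ := by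
    funext γ
    unfold mt
    push_cast
    rw [Finset.sum_smul]
  rw [e]
  exact ⟨summable_sum fun χ hχ => h χ hχ, Summable.tsum_finsetSum fun χ hχ => h χ hχ⟩

lemma mt_sm (hG : GRHq H) : Summable (fun γ : ℝ => (mt H γ : ℝ) / (1 + γ ^ 2)) := by
  have h := (mt_sum (H := H) (fun γ => 1 / (1 + γ ^ 2)) (fun χ hχ => by
    simp only [smul_eq_mul, mul_one_div]
    exact (Pool.Agent.Q151.LQ.t_PF q χ (hG χ hχ)).1)).1
  simp only [smul_eq_mul, mul_one_div] at h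
  exact h

/-- the sum over the ordinates -/
noncomputable def SZ (H : Subgroup (ZMod q)ˣ) (z : ℂ) : ℂ := ∑' γ : ℝ, (mt H γ : ℝ) • (z / (z ^ 2 + (γ : ℂ) ^ 2))

lemma Lam_sub (hG : GRHq H) {z w : ℂ} (hz : 0 < z.re) (hw : 0 < w.re) : Lam H z - Lam H w = SZ H z - SZ H w := by
  obtain ⟨C, hC⟩ := cauchy_le hz hw
  obtain ⟨C1, hC1⟩ := kern_le hz
  obtain ⟨C2, hC2⟩ := kern_le hw
  set P : ℝ → ℂ := fun γ => 1 / (z - γ * I) - 1 / (w - γ * I) with hP
  have hPF := fun (χ : DirichletCharacter ℂ q) (hχ : χ ∈ chH H) => Pool.Agent.Q151.LQ.t_PF q χ (hG χ hχ)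
  have h1 : Lam H z - Lam H w = ∑' γ : ℝ, (mt H γ : ℝ) • P γ := by
    rw [(mt_sum (H := H) P fun χ hχ => sm_of_le (hPF χ hχ).1 hC).2]
    unfold Lam
    rw [← Finset.sum_sub_distrib]
    refine Finset.sum_congr rfl fun χ hχ => ?_
    rw [(hPF χ hχ).2.2 z w hz hw]
    refine tsum_congr fun γ => ?_
    rw [hP, Complex.real_smul, Complex.ofReal_natCast]
  have hm := mt_sm hG
  have hsP : Summable (fun γ : ℝ => (mt H γ : ℝ) • P γ) := sm_of_le hm hC
  have h2 : ∑' γ : ℝ, (mt H γ : ℝ) • P γ = ∑' γ : ℝ, (mt H γ : ℝ) • P (-γ) := by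
    rw [← (Equiv.neg ℝ).tsum_eq (fun γ : ℝ => (mt H γ : ℝ) • P γ)]
    refine tsum_congr fun γ => ?_
    simp only [Equiv.neg_apply, mt_neg]
  have hsP' : Summable (fun γ : ℝ => (mt H γ : ℝ) • P (-γ)) := by
    have := (Equiv.neg ℝ).summable_iff.2 hsP
    refine this.congr fun γ => ?_
    simp only [Function.comp, Equiv.neg_apply, mt_neg]
  have h3 : ∑' γ : ℝ, (mt H γ : ℝ) • P γ + ∑' γ : ℝ, (mt H γ : ℝ) • P (-γ) = 2 * (SZ H z - SZ H w) := by
    unfold SZ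
    rw [← hsP.tsum_add hsP', ← (sm_of_le hm hC1).tsum_sub (sm_of_le hm hC2), ← tsum_mul_left]
    refine tsum_congr fun γ => ?_
    rw [hP, ← smul_add, ← smul_sub, mul_smul_comm]
    congr 1
    have a1 := ne_zI hz γ
    have a2 := ne_zI' hz γ
    have a3 := ne_zI hw γ
    have a4 := ne_zI' hw γ
    have e1 : z ^ 2 + (γ : ℂ) ^ 2 = (z - γ * I) * (z + γ * I) := by
      ring_nf; rw [I_sq]; ring
    have e2 : w ^ 2 + (γ : ℂ) ^ 2 = (w - γ * I) * (w + γ * I) := by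
      ring_nf; rw [I_sq]; ring
    rw [e1, e2]
    push_cast
    rw [neg_mul, sub_neg_eq_add, sub_neg_eq_add]
    have e3 : 1 / (z - γ * I) + 1 / (z + γ * I) = 2 * (z / ((z - γ * I) * (z + γ * I))) := by
      field_simp
      ring
    have e4 : 1 / (w - γ * I) + 1 / (w + γ * I) = 2 * (w / ((w - γ * I) * (w + γ * I))) := by
      field_simp
      ring
    linear_combination e3 - e4
  rw [← h2, ← two_mul] at h3
  rw [h1]
  exact mul_left_cancel₀ two_ne_zero h3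

lemma Lam_re (hG : GRHq H) {x : ℝ} (hx : 0 < x) : (Lam H x).re = (SZ H x).re ∧ (SZ H x).im = 0 := by
  have hm := mt_sm hG
  have hxr : 0 < (x : ℂ).re := by rw [ofReal_re]; exact hx
  obtain ⟨C1, hC1⟩ := kern_le hxr
  have hPF := fun (χ : DirichletCharacter ℂ q) (hχ : χ ∈ chH H) => Pool.Agent.Q151.LQ.t_PF q χ (hG χ hχ)
  have e0 : ∀ γ : ℝ, (x : ℂ) / ((x : ℂ) ^ 2 + (γ : ℂ) ^ 2) = ((x / (x ^ 2 + γ ^ 2) : ℝ) : ℂ) := by
    intro γ; push_cast; rfl
  have hS : SZ H x = ((∑' γ : ℝ, (mt H γ : ℝ) * (x / (x ^ 2 + γ ^ 2)) : ℝ) : ℂ) := by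
    unfold SZ
    rw [Complex.ofReal_tsum]
    refine tsum_congr fun γ => ?_
    rw [e0, Complex.real_smul]
    push_cast
    rfl
  have hR : (Lam H x).re = ∑' γ : ℝ, (mt H γ : ℝ) * (x / (x ^ 2 + γ ^ 2)) := by
    have hk : ∀ γ : ℝ, ‖x / (x ^ 2 + γ ^ 2)‖ ≤ C1 / (1 + γ ^ 2) := by
      intro γ
      have := hC1 γ
      rw [e0, Complex.norm_real] at this
      exact this
    have h1 := (mt_sum (H := H) (fun γ => x / (x ^ 2 + γ ^ 2)) fun χ hχ => sm_of_le (hPF χ hχ).1 hk).2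
    simp only [smul_eq_mul] at h1
    rw [h1]
    unfold Lam
    rw [re_sum]
    refine Finset.sum_congr rfl fun χ hχ => ?_
    rw [(hPF χ hχ).2.1 x hxr]
    refine tsum_congr fun γ => ?_
    congr 1
    have e1 : (1 : ℂ) / (x - γ * I) = ((x / (x ^ 2 + γ ^ 2) : ℝ) : ℂ) + ((γ / (x ^ 2 + γ ^ 2) : ℝ) : ℂ) * I := by
      have a1 := ne_zI hxr γ
      have a2 : ((x : ℂ) ^ 2 + (γ : ℂ) ^ 2) ≠ 0 := ne_sq hxr γ
      push_cast
      field_simp
      ring_nf
      rw [I_sq]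
      ring
    rw [e1, add_re, ofReal_re, re_ofReal_mul, I_re, mul_zero, add_zero]
  rw [hS]
  refine ⟨by rw [hR, ofReal_re], ofReal_im _⟩

end Pool.Agent.Q253.LH
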