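import Pool.Agent.Q253.LH.F1
import Pool.Agent.H429R2.GP.XF

set_option autoImplicit false

/-! # Project LQ: the logarithmic derivative of the product is real on the real axis -/

namespace Pool.Agent.Q253.LH

open MeasureTheory Filter Topology Set Complex
open DirichletCharacter (LFunction completedLFunction)
open Pool.Agent.Q14.LQ
open Pool.Agent.Q253.LQ (GRHc mc XL xi EC I0 Xi_split' logDeriv_real DS_tendsto)
open Pool.Agent.Q253.CP (chH mem_chH one_mem_chH sum_chH)

variable {q : ℕ} [NeZero q] {H : Subgroup (ZMod q)ˣ}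

/-- the imaginary part tends to zero -/
lemma Lam_im : Tendsto (fun x : ℝ => (Lam H x).im) atTop (𝓝 0) := by
  have h1 : ∀ χ : DirichletCharacter ℂ q, Tendsto (fun x : ℝ => (Xi χ x).im) atTop (𝓝 0) := by
    intro χ
    have : NeZero χ.conductor := ⟨χ.conductor_ne_zero⟩
    obtain ⟨a, K, ha, h⟩ := Xi_split' χ
    have h3 : Tendsto (fun x : ℝ => (-DS (bc χ.primitiveCharacter) (x : ℂ)).im) atTop (𝓝 0) := by
      have := (DS_tendsto χ.primitiveCharacter).neg
      rw [neg_zero] at this
      have h4 := (Complex.continuous_im.tendsto 0).comp this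
      rw [zero_im] at h4
      exact h4
    refine h3.congr' ?_
    filter_upwards [eventually_gt_atTop 1] with x hx
    have hxr : 1 / 2 < (x : ℂ).re := by rw [ofReal_re]; linarith
    rw [h x hxr, DS_bc χ.primitiveCharacter hxr, neg_neg, add_im]
    have e1 : ((K : ℂ) + logDeriv Gammaℝ (1 / 2 + x + a) + P1 χ * (1 / (1 / 2 + x) + 1 / (-(1 / 2) + x))).im = 0 := by
      have e2 : (1 / 2 + (x : ℂ) + a) = ((1 / 2 + x + a : ℝ) : ℂ) := by push_cast; rfl
      have e3 : (logDeriv Gammaℝ (1 / 2 + (x : ℂ) + a)).im = 0 := by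
        rw [e2]
        exact logDeriv_real H429.GP.Gammaℝ_conj _
      have e4 : (P1 χ * (1 / (1 / 2 + (x : ℂ)) + 1 / (-(1 / 2) + x))).im = 0 := by
        have e5 : (1 / (1 / 2 + (x : ℂ)) + 1 / (-(1 / 2) + x)) = ((1 / (1 / 2 + x) + 1 / (-(1 / 2) + x) : ℝ) : ℂ) := by
          push_cast; rfl
        rw [e5]
        unfold P1
        split_ifs
        · rw [one_mul, ofReal_im]
        · rw [zero_mul, zero_im]
      rw [add_im, add_im, e3, e4, ofReal_im]
      norm_num
    rw [e1, add_zero]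
  have h2 := tendsto_finsetSum (chH H) fun χ (_ : χ ∈ chH H) => h1 χ
  rw [Finset.sum_const_zero] at h2
  refine h2.congr fun x => ?_
  unfold Lam
  rw [im_sum]
  rfl

/-- **partial fractions of the union** -/
theorem Lam_eq (hG : GRHq H) {z : ℂ} (hz : 0 < z.re) : Lam H z = SZ H z := by
  have h1 : ∀ x : ℝ, 0 < x → Lam H z - SZ H z = (((Lam H x).im : ℝ) : ℂ) * I := by
    intro x hx
    have hxr : 0 < (x : ℂ).re := by rw [ofReal_re]; exact hx
    have h2 := Lam_sub hG hz hxr
    obtain ⟨h3, h4⟩ := Lam_re hG hx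
    have h5 : Lam H x - SZ H x = (((Lam H x).im : ℝ) : ℂ) * I := by
      apply Complex.ext
      · rw [sub_re, h3, re_ofReal_mul, I_re]; ring
      · rw [sub_im, h4, im_ofReal_mul, I_im]; ring
    rw [← h5]
    linear_combination h2
  have h2 : Tendsto (fun x : ℝ => (((Lam H x).im : ℝ) : ℂ) * I) atTop (𝓝 (((0 : ℝ) : ℂ) * I)) :=
    ((Complex.continuous_ofReal.tendsto 0).comp Lam_im).mul_const I
  have h3 : Tendsto (fun x : ℝ => (((Lam H x).im : ℝ) : ℂ) * I) atTop (𝓝 (Lam H z - SZ H z)) := by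
    refine tendsto_const_nhds.congr' ?_
    filter_upwards [eventually_gt_atTop 0] with x hx using h1 x hx
  have h4 := tendsto_nhds_unique h3 h2
  rw [ofReal_zero, zero_mul] at h4
  exact sub_eq_zero.1 h4

end Pool.Agent.Q253.LH
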