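import Pool.Agent.Q253.LH.F4
import Pool.Agent.Q253.CP.F4

set_option autoImplicit false

/-! # Project LH: linear independence in the form of the problem -/

namespace Pool.Agent.Q253.LH

open MeasureTheory Filter Topology Set Complex
open DirichletCharacter (LFunction completedLFunction)
open Pool.Agent.Q253.CP (half_re1 half_im1 half_ne1 ordNat_iff strip_line ord_ne_top)
open Pool.Agent.Q253.LQ (GRHc mc XL xi EC I0 sm_of_le even_sum mc_one_iff)
open Pool.Agent.Q253.CP (chH mem_chH one_mem_chH sum_chH)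

variable {q : ℕ} [NeZero q] {H : Subgroup (ZMod q)ˣ}

/-- the problem's statement for one abelian field -/
def LIz (H : Subgroup (ZMod q)ˣ) : Prop :=
  (∀ χ ∈ chH H, ∀ ρ : ℂ, 0 < ρ.re → ρ.re < 1 → 0 < ρ.im → LFunction χ ρ = 0 →
    deriv (LFunction χ) ρ ≠ 0) ∧
  LinearIndependent ℚ (fun p : {p : DirichletCharacter ℂ q × ℂ //
    p.1 ∈ chH H ∧ 0 < p.2.re ∧ p.2.re < 1 ∧ 0 < p.2.im ∧ LFunction p.1 p.2 = 0} => p.1.2.im)

lemma mt_ne (γ : ℝ) : mt H γ ≠ 0 ↔ ∃ χ ∈ chH H, LFunction χ (1 / 2 + (γ : ℂ) * I) = 0 := by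
  unfold mt
  rw [Ne, Finset.sum_eq_zero_iff]
  push Not
  constructor
  · rintro ⟨χ, hχ, h⟩
    exact ⟨χ, hχ, (ordNat_iff χ (half_ne1 γ)).1 h⟩
  · rintro ⟨χ, hχ, h⟩
    exact ⟨χ, hχ, (ordNat_iff χ (half_ne1 γ)).2 h⟩

lemma mc_le_mt {χ : DirichletCharacter ℂ q} (hχ : χ ∈ chH H) (γ : ℝ) : mc χ γ ≤ mt H γ := by
  unfold mt
  exact Finset.single_le_sum (f := fun χ => mc χ γ) (fun _ _ => Nat.zero_le _) hχ

lemma on_line (hG : GRHq H) {χ : DirichletCharacter ℂ q} (hχ : χ ∈ chH H) {ρ : ℂ} (h0 : 0 < ρ.re) (h1 : ρ.re < 1)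
    (hz : LFunction χ ρ = 0) : (1 / 2 : ℂ) + (ρ.im : ℂ) * I = ρ := by
  have h5 := strip_line (hG χ hχ) h0 h1 hz
  apply Complex.ext
  · rw [half_re1, h5]
  · rw [half_im1]

theorem LI_iff (hG : GRHq H) : LIz H ↔ LinearIndependent ℚ (gi : Idx H → ℝ) := by
  constructor
  · rintro ⟨hsimple, hL⟩
    have hinj := hL.injective
    have hmc : ∀ χ ∈ chH H, ∀ γ : ℝ, 0 < γ → mc χ γ ≤ 1 := by
      intro χ hχ γ hγ
      by_cases h : LFunction χ (1 / 2 + (γ : ℂ) * I) = 0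
      · exact (mc_one_iff χ h).2 (hsimple χ hχ _ (by rw [half_re1]; norm_num) (by rw [half_re1]; norm_num)
          (by rw [half_im1]; exact hγ) h)
      · have : mc χ γ = 0 := by
          by_contra h2
          exact h ((ordNat_iff χ (half_ne1 γ)).1 h2)
        omega
    have hone : ∀ χ ∈ chH H, ∀ χ' ∈ chH H, ∀ γ : ℝ, 0 < γ → mc χ γ ≠ 0 → mc χ' γ ≠ 0 → χ = χ' := by
      intro χ hχ χ' hχ' γ hγ h1 h2
      have a1 := (ordNat_iff χ (half_ne1 γ)).1 h1
      have a2 := (ordNat_iff χ' (half_ne1 γ)).1 h2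
      have b : ∀ ψ ∈ chH H, LFunction ψ (1 / 2 + (γ : ℂ) * I) = 0 →
          ψ ∈ chH H ∧ 0 < (1 / 2 + (γ : ℂ) * I).re ∧ (1 / 2 + (γ : ℂ) * I).re < 1 ∧ 0 < (1 / 2 + (γ : ℂ) * I).im ∧
            LFunction ψ (1 / 2 + (γ : ℂ) * I) = 0 := fun ψ hm hψ =>
        ⟨hm, by rw [half_re1]; norm_num, by rw [half_re1]; norm_num, by rw [half_im1]; exact hγ, hψ⟩
      have h3 := @hinj ⟨(χ, 1 / 2 + (γ : ℂ) * I), b χ hχ a1⟩ ⟨(χ', 1 / 2 + (γ : ℂ) * I), b χ' hχ' a2⟩ rfl
      have h4 := congrArg (fun p => p.1.1) h3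
      exact h4
    have hmt : ∀ γ : ℝ, 0 < γ → mt H γ ≤ 1 := by
      intro γ hγ
      by_cases h : mt H γ = 0
      · omega
      · obtain ⟨χ, hχ, hz⟩ := (mt_ne γ).1 h
        have h1 : mc χ γ ≠ 0 := (ordNat_iff χ (half_ne1 γ)).2 hz
        have h2 : mt H γ = mc χ γ := by
          unfold Pool.Agent.Q253.LH.mt
          refine Finset.sum_eq_single χ (fun χ' hχ' hne => ?_) (fun h => absurd hχ h)
          by_contra h3
          exact hne (hone χ' hχ' χ hχ γ hγ h3 h1)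
        rw [h2]
        exact hmc χ hχ γ hγ
    have hex : ∀ i : Idx H, ∃ χ ∈ chH H, LFunction χ (1 / 2 + (gi i : ℂ) * I) = 0 := fun i =>
      (mt_ne (gi i)).1 (Nat.pos_iff_ne_zero.1 i.2.pos)
    choose χi hmi hχi using hex
    set F : Idx H → {p : DirichletCharacter ℂ q × ℂ //
        p.1 ∈ chH H ∧ 0 < p.2.re ∧ p.2.re < 1 ∧ 0 < p.2.im ∧ LFunction p.1 p.2 = 0} :=
      fun i => ⟨(χi i, 1 / 2 + (gi i : ℂ) * I), by
        refine ⟨hmi i, ?_, ?_, ?_, hχi i⟩
        · show 0 < (1 / 2 + (gi i : ℂ) * I).re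
          rw [half_re1]; norm_num
        · show (1 / 2 + (gi i : ℂ) * I).re < 1
          rw [half_re1]; norm_num
        · show 0 < (1 / 2 + (gi i : ℂ) * I).im
          rw [half_im1]; exact gi_pos i⟩ with hF
    have hFim : ∀ i, (F i).1.2.im = gi i := fun i => half_im1 _
    have hFinj : Function.Injective F := by
      intro i j hij
      have h1 : gi i = gi j := by rw [← hFim, ← hFim, hij]
      obtain ⟨γ, k⟩ := i
      obtain ⟨γ', k'⟩ := j
      have h2 : γ = γ' := Subtype.ext h1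
      subst h2
      have h3 := hmt γ.1 γ.2
      have h4 := k.2
      have h5 := k'.2
      have h6 : k = k' := by
        apply Fin.ext
        omega
      rw [h6]
    have h7 := hL.comp F hFinj
    have e : (fun p : {p : DirichletCharacter ℂ q × ℂ //
        p.1 ∈ chH H ∧ 0 < p.2.re ∧ p.2.re < 1 ∧ 0 < p.2.im ∧ LFunction p.1 p.2 = 0} =>
        p.1.2.im) ∘ F = gi := by
      funext i
      exact hFim i
    rw [e] at h7
    exact h7
  · intro hL
    have hinj := hL.injective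
    have hmt : ∀ γ : ℝ, 0 < γ → mt H γ ≤ 1 := by
      intro γ hγ
      by_contra h
      have h2 : 1 < mt H γ := not_le.1 h
      have h1 : 0 < mt H γ := lt_trans one_pos h2
      set i0 : Idx H := ⟨⟨γ, hγ⟩, ⟨0, h1⟩⟩ with hi0
      set i1 : Idx H := ⟨⟨γ, hγ⟩, ⟨1, h2⟩⟩ with hi1
      have h3 : i0 = i1 := hinj rfl
      have h4 : (i0.2 : ℕ) = (i1.2 : ℕ) := congrArg (fun i : Idx H => (i.2 : ℕ)) h3
      rw [hi0, hi1] at h4
      exact zero_ne_one h4
    refine ⟨fun χ hχ ρ h0 h1 h2 h3 => ?_, ?_⟩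
    · have h5 := on_line hG hχ h0 h1 h3
      rw [← h5] at h3 ⊢
      exact (mc_one_iff χ h3).1 ((mc_le_mt hχ _).trans (hmt _ h2))
    · have hpos : ∀ p : {p : DirichletCharacter ℂ q × ℂ // p.1 ∈ chH H ∧ 0 < p.2.re ∧ p.2.re < 1 ∧ 0 < p.2.im ∧
          LFunction p.1 p.2 = 0}, 0 < mt H p.1.2.im := by
        intro p
        refine Nat.pos_of_ne_zero ((mt_ne _).2 ⟨p.1.1, p.2.1, ?_⟩)
        rw [on_line hG p.2.1 p.2.2.1 p.2.2.2.1 p.2.2.2.2.2]
        exact p.2.2.2.2.2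
      set F : {p : DirichletCharacter ℂ q × ℂ // p.1 ∈ chH H ∧ 0 < p.2.re ∧ p.2.re < 1 ∧ 0 < p.2.im ∧
          LFunction p.1 p.2 = 0} → Idx H :=
        fun p => ⟨⟨p.1.2.im, p.2.2.2.2.1⟩, ⟨0, hpos p⟩⟩ with hF
      have hFinj : Function.Injective F := by
        intro p p' hpp
        have h1 : p.1.2.im = p'.1.2.im := congrArg gi hpp
        have h2 : p.1.2 = p'.1.2 := by
          rw [← on_line hG p.2.1 p.2.2.1 p.2.2.2.1 p.2.2.2.2.2, ← on_line hG p'.2.1 p'.2.2.1 p'.2.2.2.1 p'.2.2.2.2.2, h1]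
        have h3 : p.1.1 = p'.1.1 := by
          by_contra hne
          have a1 : mc p.1.1 p.1.2.im ≠ 0 := by
            refine (ordNat_iff _ (half_ne1 _)).2 ?_
            rw [on_line hG p.2.1 p.2.2.1 p.2.2.2.1 p.2.2.2.2.2]
            exact p.2.2.2.2.2
          have a2 : mc p'.1.1 p.1.2.im ≠ 0 := by
            refine (ordNat_iff _ (half_ne1 _)).2 ?_
            rw [h1, on_line hG p'.2.1 p'.2.2.1 p'.2.2.2.1 p'.2.2.2.2.2]
            exact p'.2.2.2.2.2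
          have a3 : mc p.1.1 p.1.2.im + mc p'.1.1 p.1.2.im ≤ mt H p.1.2.im := by
            classical
            unfold Pool.Agent.Q253.LH.mt
            rw [← Finset.sum_pair (f := fun χ : DirichletCharacter ℂ q => mc χ p.1.2.im) hne]
            refine Finset.sum_le_sum_of_subset_of_nonneg (fun χ hχ => ?_) fun _ _ _ => Nat.zero_le _
            rcases Finset.mem_insert.1 hχ with h | h
            · rw [h]; exact p.2.1
            · rw [Finset.mem_singleton.1 h]; exact p'.2.1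
          have a4 := hmt _ p.2.2.2.2.1
          omega
        exact Subtype.ext (Prod.ext h3 h2)
      exact hL.comp F hFinj

lemma mt_zero_iff : mt H 0 = 0 ↔ ∀ χ ∈ chH H, LFunction χ (1 / 2) ≠ 0 := by
  have h := (mt_ne (H := H) 0).not
  push Not at h
  rw [h]
  refine forall₂_congr fun χ _ => ?_
  simp

end Pool.Agent.Q253.LH
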