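import Pool.Agent.Q253.LH.F5
import Pool.Agent.Q253.LM.F2
import Pool.Agent.Q38.LM.MN
import Pool.Agent.Q68.LM.TR
import Pool.Agent.Q68.LM.GF
import Pool.Agent.Q68.LM.TT
import Pool.Agent.Q68.LM.RL
import Pool.Agent.Q68.LM.LI
import Pool.Agent.Q223.LM.TC

set_option autoImplicit false

/-! # Project LH: the moments for an abelian field -/

namespace Pool.Agent.Q253.LH

open MeasureTheory Filter Topology Set Complex
open DirichletCharacter (LFunction completedLFunction)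
open Pool.Agent.Q253.LQ (GRHc mc XL xi EC I0 sm_of_le even_sum)
open Pool.Agent.Q253.CP (chH mem_chH one_mem_chH sum_chH)
open Pool.Agent.Q253.LM (T R NoRel I0_neg I0_zero)

variable {q : ℕ} [NeZero q] {H : Subgroup (ZMod q)ˣ}

/-- the `k`-th moment of `-E` -/
noncomputable def MK (H : Subgroup (ZMod q)ˣ) (k : ℕ) (U : ℝ) : ℝ := (1 / U) * ∫ u in (0 : ℝ)..U, (-EE H u) ^ k

theorem lim (hG : GRHq H) (h0 : mt H 0 = 0) (k : ℕ) :
    Tendsto (MK H k) atTop (𝓝 (T (gi : Idx H → ℝ) ci k)) := by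
  obtain ⟨r, hrm, hB, hr0, hr⟩ := rem hG
  have h1 := Pool.Agent.Q38.LM.t_MN (Idx H) gi ci r k ci_pos (ci_sm hG) hrm hB hr0
  refine h1.congr' ?_
  filter_upwards [eventually_ge_atTop 0] with U hU
  unfold MK
  congr 1
  refine intervalIntegral.integral_congr fun u hu => ?_
  rw [uIcc_of_le hU] at hu
  have h2 := hr u hu.1
  rw [h0] at h2
  unfold AP at h2
  congr 1
  rw [h2]
  push_cast
  ring

/-- the first moment counts the central zeros -/
theorem lim_one (hG : GRHq H) : Tendsto (MK H 1) atTop (𝓝 (2 * (mt H 0 : ℝ))) := by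
  obtain ⟨r, hrm, hB, hr0, hr⟩ := rem hG
  have h1 := Pool.Agent.Q38.LM.t_MN (Idx H) gi ci r 1 ci_pos (ci_sm hG) hrm hB hr0
  have h2 : T (gi : Idx H → ℝ) ci 1 = 0 := by
    unfold T
    rw [tsum_congr (g := fun _ => (0 : ℝ)), tsum_zero]
    intro t
    rw [if_neg]
    rw [Fin.sum_univ_one]
    have h3 := gi_pos (t 0).1
    unfold Pool.Agent.Q253.LM.fr
    split_ifs
    · exact h3.ne'
    · exact (neg_neg_of_pos h3).ne
  rw [h2] at h1
  have h3 : Tendsto (fun _ : ℝ => 2 * (mt H 0 : ℝ)) atTop (𝓝 (2 * (mt H 0 : ℝ))) := tendsto_const_nhds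
  have h4 := h3.add h1
  rw [add_zero] at h4
  refine h4.congr' ?_
  filter_upwards [eventually_gt_atTop 0] with U hU
  obtain ⟨B, hB⟩ := hB
  have hi : IntervalIntegrable (fun u : ℝ => (∑' i : Idx H, 2 * ci i * Real.cos (gi i * u) + r u) ^ 1) volume 0 U := by
    have c1 : Continuous (fun u : ℝ => ∑' i : Idx H, 2 * ci i * Real.cos (gi i * u)) := AP_cont hG
    have i1 : IntervalIntegrable r volume 0 U :=
      (intervalIntegrable_const (c := B)).mono_fun' hrm.aestronglyMeasurable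
        (Eventually.of_forall fun u => by
          show ‖r u‖ ≤ B
          rw [Real.norm_eq_abs]; exact hB u)
    have i2 := (c1.intervalIntegrable (μ := volume) 0 U).add i1
    refine i2.congr fun u _ => ?_
    simp
  have e1 : ∫ u in (0 : ℝ)..U, (-EE H u) ^ 1 =
      (∫ _u in (0 : ℝ)..U, 2 * (mt H 0 : ℝ)) +
        ∫ u in (0 : ℝ)..U, (∑' i : Idx H, 2 * ci i * Real.cos (gi i * u) + r u) ^ 1 := by
    rw [← intervalIntegral.integral_add intervalIntegrable_const hi]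
    refine intervalIntegral.integral_congr fun u hu => ?_
    rw [uIcc_of_le hU.le] at hu
    have h2 := hr u hu.1
    unfold AP at h2
    simp only [pow_one]
    rw [h2]
    ring
  unfold MK
  rw [e1, mul_add, intervalIntegral.integral_const, smul_eq_mul, sub_zero]
  field_simp

lemma Rq_neg (lam : ℝ) : Rq H (-lam) = Rq H lam := by
  unfold Rq
  congr 3
  have e : (fun t : ℂ => Hq H t * Complex.log (I0 (4 * ((-lam : ℝ) : ℂ) / t))) =
      fun t : ℂ => Hq H t * Complex.log (I0 (4 * (lam : ℂ) / t)) := by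
    funext t
    have : 4 * ((-lam : ℝ) : ℂ) / t = -(4 * (lam : ℂ) / t) := by push_cast; ring
    rw [this, I0_neg]
  rw [e]

lemma Rq_zero : Rq H 0 = 1 := by
  unfold Rq
  have e : (fun t : ℂ => Hq H t * Complex.log (I0 (4 * ((0 : ℝ) : ℂ) / t))) = fun _ => 0 := by
    funext t
    rw [Complex.ofReal_zero, mul_zero, zero_div, I0_zero, Complex.log_one, mul_zero]
  have e2 : (∮ t in C(0, 1 / 2), Hq H t * Complex.log (I0 (4 * ((0 : ℝ) : ℂ) / t))) = 0 := by
    rw [show (∮ t in C(0, 1 / 2), Hq H t * Complex.log (I0 (4 * ((0 : ℝ) : ℂ) / t))) =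
      ∮ t in C(0, 1 / 2), (fun t : ℂ => Hq H t * Complex.log (I0 (4 * ((0 : ℝ) : ℂ) / t))) t from rfl, e]
    simp [circleIntegral]
  rw [e2, mul_zero, Complex.zero_re, Real.exp_zero]

/-- the trivial parts of the moments are the derivatives of `R` at `0` -/
theorem Rder (hG : GRHq H) (h0 : mt H 0 = 0) (k : ℕ) :
    iteratedDeriv k (Rq H) 0 = R (ci : Idx H → ℝ) k := by
  obtain ⟨g0, g1, g2⟩ := Pool.Agent.Q68.LM.t_GF Pool.Agent.Q38.LM.t_MN Pool.Agent.Q68.LM.t_TR (Idx H) ci ci_pos (ci_sm hG)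
  refine Pool.Agent.Q223.LM.t_TC (Rq H) (R (ci : Idx H → ℝ)) ?_ Rq_neg g1 (fun x hx hx1 => ?_) k
  · rw [Rq_zero, g0]
  · rw [(Rq_le hG hx hx1).2.2 h0]
    exact g2 x hx

/-- a bounded even moment implies the Riemann hypothesis -/
theorem grh_of_moment {k : ℕ} (hk : Even k) (hk0 : k ≠ 0)
    (h : ∃ C : ℝ, ∀ᶠ U : ℝ in atTop, MK H k U ≤ C) : GRHq H := by
  obtain ⟨C, hC⟩ := h
  have hc : Continuous (fun u => -EE H u) := (EE_cont H).neg
  refine LA_H ⟨C + 1, ?_⟩
  filter_upwards [hC, eventually_gt_atTop 0] with U hU hU0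
  have h1 : ∀ u : ℝ, max (-EE H u) 0 ≤ (-EE H u) ^ k + 1 := by
    intro u
    set x := -EE H u with hx
    have h2 : 0 ≤ x ^ k := hk.pow_nonneg x
    rcases le_total x 1 with h | h
    · exact max_le (by linarith) (by linarith)
    · refine max_le ?_ (by linarith)
      have h3 : x ^ 1 ≤ x ^ k := pow_le_pow_right₀ h (Nat.one_le_iff_ne_zero.2 hk0)
      rw [pow_one] at h3
      linarith
  have c1 : Continuous (fun u => max (-EE H u) 0) := hc.max continuous_const
  have c2 : Continuous (fun u => (-EE H u) ^ k + 1) := (hc.pow k).add continuous_const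
  have h2 : ∫ u in (0 : ℝ)..U, max (-EE H u) 0 ≤ ∫ u in (0 : ℝ)..U, ((-EE H u) ^ k + 1) :=
    intervalIntegral.integral_mono_on hU0.le (c1.intervalIntegrable _ _) (c2.intervalIntegrable _ _) fun u _ => h1 u
  have h3 : ∫ u in (0 : ℝ)..U, ((-EE H u) ^ k + 1) = (∫ u in (0 : ℝ)..U, (-EE H u) ^ k) + U := by
    have c3 : Continuous (fun u => (-EE H u) ^ k) := hc.pow k
    have c4 : Continuous (fun _ : ℝ => (1 : ℝ)) := continuous_const
    rw [intervalIntegral.integral_add (c3.intervalIntegrable _ _) (c4.intervalIntegrable _ _),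
      intervalIntegral.integral_const, smul_eq_mul, mul_one, sub_zero]
  rw [h3] at h2
  unfold MK at hU
  rw [one_div, inv_mul_le_iff₀ hU0] at hU
  linarith

/-- the `k`-th moment for even `k` is bounded under the Riemann hypothesis -/
theorem moment_bdd (hG : GRHq H) {k : ℕ} (_hk : Even k) : ∃ C : ℝ, ∀ᶠ U : ℝ in atTop, MK H k U ≤ C := by
  obtain ⟨r, hrm, ⟨B, hB⟩, hr0, hr⟩ := rem hG
  have hc : Continuous (fun u => -EE H u) := (EE_cont H).neg
  set K : ℝ := 2 * (mt H 0 : ℝ) + (∑' i : Idx H, 2 * ci i) + B with hK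
  refine ⟨K ^ k, ?_⟩
  filter_upwards [eventually_gt_atTop 0] with U hU
  have hb : ∀ u : ℝ, 0 ≤ u → |-EE H u| ≤ K := by
    intro u hu
    rw [hr u hu, hK]
    have h1 : |AP H u| ≤ ∑' i : Idx H, 2 * ci i := by
      unfold AP
      exact Pool.Agent.Q38.LM.cos_le gi ci ci_pos (ci_sm hG) u
    have h2 := hB u
    have h3 : |2 * (mt H 0 : ℝ)| = 2 * (mt H 0 : ℝ) := abs_of_nonneg (by positivity)
    calc |2 * (mt H 0 : ℝ) + AP H u + r u| ≤ |2 * (mt H 0 : ℝ) + AP H u| + |r u| := abs_add_le _ _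
      _ ≤ |2 * (mt H 0 : ℝ)| + |AP H u| + |r u| := by gcongr; exact abs_add_le _ _
      _ ≤ _ := by rw [h3]; gcongr
  have h1 : ∫ u in (0 : ℝ)..U, (-EE H u) ^ k ≤ ∫ _u in (0 : ℝ)..U, K ^ k := by
    have c3 : Continuous (fun u => (-EE H u) ^ k) := hc.pow k
    refine intervalIntegral.integral_mono_on hU.le (c3.intervalIntegrable _ _) intervalIntegrable_const fun u hu => ?_
    calc (-EE H u) ^ k ≤ |(-EE H u) ^ k| := le_abs_self _
      _ = |-EE H u| ^ k := abs_pow _ _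
      _ ≤ K ^ k := pow_le_pow_left₀ (abs_nonneg _) (hb u hu.1) k
  rw [intervalIntegral.integral_const, smul_eq_mul, sub_zero] at h1
  unfold MK
  rw [one_div, inv_mul_le_iff₀ hU]
  exact h1

/-- one level -/
theorem level (hG : GRHq H) (h0 : mt H 0 = 0) (k : ℕ) :
    iteratedDeriv k (Rq H) 0 ≤ T (gi : Idx H → ℝ) ci k ∧
    (T (gi : Idx H → ℝ) ci k = iteratedDeriv k (Rq H) 0 ↔ NoRel (gi : Idx H → ℝ) k) ∧
    ((∀ ε : ℝ, 0 < ε → ∀ᶠ U : ℝ in atTop, MK H k U ≤ iteratedDeriv k (Rq H) 0 + ε) ↔ NoRel (gi : Idx H → ℝ) k) := by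
  rw [Rder hG h0]
  obtain ⟨a, b⟩ := Pool.Agent.Q68.LM.t_TR (Idx H) gi ci k ci_pos (ci_sm hG)
  refine ⟨a, b, ?_⟩
  rw [← b]
  have hl := lim hG h0 k
  constructor
  · intro h
    refine le_antisymm (le_of_forall_pos_le_add fun ε hε => ?_) a
    exact le_of_tendsto hl (h ε hε)
  · intro h ε hε
    rw [h] at hl
    filter_upwards [hl.eventually (gt_mem_nhds (show R (ci : Idx H → ℝ) k < R (ci : Idx H → ℝ) k + ε by linarith))]
      with U hU using hU.le

end Pool.Agent.Q253.LH
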